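import Pool.Agent.U845.XM.Stm
import Pool.Agent.U845.TI.Sel

/-! Project XM, package QX (helper194): the curve `y² = x³ + 41 x² + 400 x` has only finitely many
rational points. -/

set_option autoImplicit false

namespace Pool.Agent.U194.XM

open Pool.Agent.U845.XM
open Pool.Agent.U845.TI
open Pool.Agent.U115.GE (Qs ELS SelSet sel sel_dvd)

set_option maxRecDepth 100000 in
lemma n1 : NoMod 41 2 200 2 3 := by
  unfold NoMod qf
  decide +kernel

set_option maxRecDepth 100000 in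
lemma n2 : NoMod 41 (-2) (-200) 2 3 := by
  unfold NoMod qf
  decide +kernel

set_option maxRecDepth 100000 in
lemma n3 : NoMod 41 10 40 2 3 := by
  unfold NoMod qf
  decide +kernel

set_option maxRecDepth 100000 in
lemma n4 : NoMod 41 (-10) (-40) 2 3 := by
  unfold NoMod qf
  decide +kernel

/-- the squares modulo 81 -/
def L81 : List ℕ := (List.range 81).map fun n => n * n % 81

set_option maxRecDepth 100000 in
lemma n5a : ∀ M : ℕ, M < 81 → ∀ e : ℕ, e < 81 → ¬ (3 ∣ M ∧ 3 ∣ e) →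
    ¬ (qf (-82) 3 27 (M : ℤ) (e : ℤ) % 81).toNat ∈ L81 := by
  unfold qf
  decide +kernel

lemma n5 : NoMod (-82) 3 27 3 3 := by
  intro N hN M hM e he hne h
  have h3 : (3 : ℕ) ^ (3 + 1) = 81 := by norm_num
  rw [h3] at hN hM he h
  refine n5a M hM e he hne ?_
  have h1 : (81 : ℤ) ∣ (N : ℤ) * N - qf (-82) 3 27 M e := by
    exact_mod_cast Int.natCast_dvd.2 h
  have h2 : qf (-82) 3 27 (M : ℤ) (e : ℤ) % 81 = ((N * N % 81 : ℕ) : ℤ) := by
    push_cast
    omega
  rw [h2, Int.toNat_natCast]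
  unfold L81
  exact List.mem_map.2 ⟨N, List.mem_range.2 hN, rfl⟩

lemma div400 {d : ℤ} (h : d ∣ 400) (hs : Squarefree d) :
    d = 1 ∨ d = -1 ∨ d = 5 ∨ d = -5 ∨ d = 2 ∨ d = -2 ∨ d = 10 ∨ d = -10 := by
  have h1 : Squarefree d.natAbs := Int.squarefree_natAbs.2 hs
  have h2 : d.natAbs ∣ 20 ^ 2 := by
    have := Int.natAbs_dvd_natAbs.2 h
    exact this
  have h3 : d.natAbs ∣ 20 := (h1.dvd_pow_iff_dvd (by norm_num)).1 h2
  have h4 : d.natAbs ∈ Nat.divisors 20 := Nat.mem_divisors.2 ⟨h3, by norm_num⟩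
  rw [show Nat.divisors 20 = {1, 2, 4, 5, 10, 20} from by decide] at h4
  simp only [Finset.mem_insert, Finset.mem_singleton] at h4
  have h5 : ∀ k, ¬ d.natAbs = 2 * 2 * k := by
    intro k hk
    have := h1 2 ⟨k, hk⟩
    rw [Nat.isUnit_iff] at this
    omega
  have h6 := h5 1
  have h7 := h5 5
  omega

lemma div81 {d : ℤ} (h : d ∣ 81) (hs : Squarefree d) :
    d = 1 ∨ d = -1 ∨ d = 3 ∨ d = -3 := by
  have h1 : Squarefree d.natAbs := Int.squarefree_natAbs.2 hs
  have h2 : d.natAbs ∣ 3 ^ 4 := by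
    have := Int.natAbs_dvd_natAbs.2 h
    exact this
  have h3 : d.natAbs ∣ 3 := (h1.dvd_pow_iff_dvd (by norm_num)).1 h2
  have h4 : d.natAbs ∈ Nat.divisors 3 := Nat.mem_divisors.2 ⟨h3, by norm_num⟩
  rw [show Nat.divisors 3 = {1, 3} from by decide] at h4
  simp only [Finset.mem_insert, Finset.mem_singleton] at h4
  omega

lemma excl {A d b : ℤ} {B : ℤ} (hd : d ≠ 0) (hb : b ≠ 0) (hB : d * b = B) (h : NL A d b)
    (hm : d ∈ SelSet A B) : False := by
  have h1 := (nl_iff hd hb).1 h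
  rw [hB] at h1
  exact h1 hm.2

theorem t_QX : S_QX := by
  have hB : (400 : ℤ) ≠ 0 := by norm_num
  have hC : (41 : ℤ) ^ 2 - 4 * 400 ≠ 0 := by norm_num
  have c1 : Cov 41 400 [1, -1, 5, -5] := (cov_iff hB).2 fun d hd => by
    rcases div400 (sel_dvd' hd) hd.1 with rfl | rfl | rfl | rfl | rfl | rfl | rfl | rfl
    · simp
    · simp
    · simp
    · simp
    · exact (excl (by norm_num) (by norm_num) (by norm_num)
        (Or.inr ⟨2, 3, Nat.prime_two, n1⟩) hd).elim
    · exact (excl (by norm_num) (by norm_num) (by norm_num)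
        (Or.inr ⟨2, 3, Nat.prime_two, n2⟩) hd).elim
    · exact (excl (by norm_num) (by norm_num) (by norm_num)
        (Or.inr ⟨2, 3, Nat.prime_two, n3⟩) hd).elim
    · exact (excl (by norm_num) (by norm_num) (by norm_num)
        (Or.inr ⟨2, 3, Nat.prime_two, n4⟩) hd).elim
  have hC' : (81 : ℤ) ≠ 0 := by norm_num
  have c2 : Cov (-82) 81 [1] := (cov_iff hC').2 fun d hd => by
    rcases div81 (sel_dvd' hd) hd.1 with rfl | rfl | rfl | rfl
    · simp
    · exact (excl (b := -81) (by norm_num) (by norm_num) (by norm_num)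
        (Or.inl ⟨by norm_num, by norm_num, Or.inl (by norm_num)⟩) hd).elim
    · exact (excl (by norm_num) (by norm_num) (by norm_num)
        (Or.inr ⟨3, 3, Nat.prime_three, n5⟩) hd).elim
    · exact (excl (b := -27) (by norm_num) (by norm_num) (by norm_num)
        (Or.inl ⟨by norm_num, by norm_num, Or.inl (by norm_num)⟩) hd).elim
  have e1 : (-2 * 41 : ℤ) = -82 := by norm_num
  have e2 : ((41 : ℤ) ^ 2 - 4 * 400) = 81 := by norm_num
  have h1 := sel_le hB c1
  have h2 := sel_le hC' c2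
  have h3 : sel 41 400 * sel (-82) 81 ≤ 4 * 1 := Nat.mul_le_mul h1 h2
  have h4 := four_le hB hC
  rw [e1, e2] at h4
  have h5 : sel 41 400 * sel (-2 * 41) (41 ^ 2 - 4 * 400) = 4 := by
    rw [e1, e2]
    omega
  have h6 := sol_fin hB hC (fin_of hB hC h5).1
  refine h6.subset fun p hp => ?_
  have hp : p.2 ^ 2 = p.1 ^ 3 + 41 * p.1 ^ 2 + 400 * p.1 := hp
  show p.2 ^ 2 = p.1 ^ 3 + ((41 : ℤ) : ℚ) * p.1 ^ 2 + ((400 : ℤ) : ℚ) * p.1
  push_cast
  exact hp

end Pool.Agent.U194.XM
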